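import Pool.Agent.Run7.h830.GN.Surf

/-!
# Degrees of the curves in surfaces with an étale covering, outside a curve `D`, which carries a map with
many preperiodic points

`X` is a complex projective surface (an integral closed subvariety of dimension two of a projective space,
smooth or singular), given by its function field `E` and the homogeneous coordinates `x` of its generic
point: `coords ℂ x = ⊤` says that the ratios of the coordinates generate `E`. `K` is a finite extension of
`E`, of any degree: the function field of a surface `X₁` with a generically finite dominant map `X₁ ⇢ X`.

`S` is a finite nonempty set of forms, and `D` is the closed set of their common zeros in `X`.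
`EtaleAt ℂ K x G` (`Pool/Agent/Run7/h830/GN/Lift.lean`), for all `G` in `S`: over the affine open set
`{G ≠ 0}` of `X`, with the ring `A` of the functions `N / G ^ m`, the field `K` is generated by a root of a
monic polynomial `μ` over `A` with `a μ + b μ' = 1` for some polynomials `a`, `b` over `A`; so `A[T] / (μ)`
is an étale covering of `{G ≠ 0}`. Each connected finite étale covering `X₁ → X - D` of the complement of a
curve `D` (with integral `X₁`) is locally of this form, so it is given by such a set `S`; and for each
finite extension `K` of `E` there are such `S` (`Pool.Agent.Run7.h830.GN.exists_etaleAt`).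

`ManyPrep ℂ d B₀ p q` (`Pool/Agent/Q103/EC/Mxv.lean`): `f = p / q` is a rational map of degree `d` of the
projective line over `K` (a family of rational maps over an open subset of `X₁`) with at least `B₀`
preperiodic points in `P^1(K)`, and the moduli map `X₁ ⇢ M_d` is generically finite: if `f` is conjugate over
an algebraic closure of `K` to a map with coefficients algebraic over a field between `ℂ` and `K`, then `K`
is algebraic over this field.

A curve `C` in `X` is given by its function field `L` (`IsFF ℂ L`: a function field of one variable) and its
generic point `v` (`OnVar ℂ x v`: the forms which vanish at `x` vanish at `v`; `coords ℂ v = ⊤`: the ratios of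
the coordinates of `v` generate `L`). `canDeg ℂ L = 2 g - 2`, where `g` is the geometric genus of `C`, and
`pht ℂ v` is the degree of the curve `C` in the projective space. `MeetsAt S v w`: the point `w` of the
normalization of `C` lies over `D`, that is, all the forms `G` in `S` vanish there: the order of `G(v)` at
`w` is greater than `deg G` times the smallest order of a coordinate of `v`. Let `s(C)` be the number of
these points (each counted once, regardless of the multiplicity of the intersection with `D`); it is finite
if `C` is not contained in `D`.

Theorem. For every `d ≥ 2` there is a number `B₀` such that for all such `X`, `X₁`, `D` and all maps `f` over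
`K` with at least `B₀` preperiodic points there are constants `A`, `B` such that for all curves `C` in `X`, of
any geometric genus `g ≥ 0`,

  `deg C ≤ A (2 g - 2 + s(C)) + B`.

(For the finitely many curves `C` contained in `D` the number `s(C)` may be replaced by `0`.) So if `X` is
smooth then `K_X · C ≤ c deg C ≤ 2 c A (g - 1) + c A s(C) + c B`, where `c` is a number such that `c H - K_X`
is generated by its global sections, `H` a hyperplane section. This is the inequality of Q1 for all the
curves `C` with `s(C) ≤ a (g - 1) + b`, with fixed `a`, `b`: for instance for the curves which meet `D` in a
bounded number of points (of the normalization), with any multiplicities. `B₀` does not depend on the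
covering, and `X` may be any surface which is the image of a surface with such a map, for instance a
rational surface, or a surface of general type with `K² ≤ c₂`.

The theorem `MP_308c18_ag.ManyPreperiodicSurfaces` is the case `K = E` (without `D`).

Proof. A curve `C` lifts to a curve `C'` in `X₁`, whose function field `L'` is generated over `L` by a root of
the specialized polynomial `μ`. By Hensel's lemma (`Pool.Agent.Run7.h830.GN.ram_one`) `L'` is unramified over
`L` outside the `s(C)` points over `D`, so `2 g(C') - 2 ≤ [L' : L] (2 g - 2 + s(C))`, and the degree bound for
the curves in `X₁` (helper theorem `Pool.Agent.Q41.GT.c_dcb` of the starting tree, not handed in there) gives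
the inequality for all curves outside a proper closed subset of `X`, which contains only finitely many
curves.
-/

set_option autoImplicit false

namespace Pool.Agent.Results.MP_308c18_ag.CoveredSurfaces

open FF Polynomial
open Pool.Agent.W602.GT (coords val)
open Pool.Agent.Y216 (OnVar)
open Pool.Agent.W603.LV (canDeg)
open Pool.Agent.W603.PV (pht)
open Pool.Agent.Q103.EC (ManyPrep)
open Pool.Agent.Run7.h830.GN (EtaleAt MeetsAt)

/-- **Degrees of the curves in covered surfaces.** -/
theorem result (d : ℕ) (hd : 2 ≤ d) : ∃ B₀ : ℕ, ∀ (E K : Type) [Field E] [Algebra ℂ E]
    [Field K] [Algebra ℂ K] [Algebra E K] [IsScalarTower ℂ E K] [FiniteDimensional E K]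
    (p q : K[X]), ManyPrep ℂ d B₀ p q → Algebra.trdeg ℂ E = (2 : ℕ) →
    ∀ (M : ℕ) (x : Fin (M + 1) → E), x ≠ 0 → coords ℂ x = ⊤ →
    ∀ S : Finset (MvPolynomial (Fin (M + 1)) ℂ), S.Nonempty → (∀ G ∈ S, EtaleAt ℂ K x G) →
    ∃ A B : ℕ, ∀ (L : Type) [Field L] [Algebra ℂ L] [IsFF ℂ L] (v : Fin (M + 1) → L),
      OnVar ℂ x v → coords ℂ v = ⊤ →
      ((∃ G ∈ S, val v G ≠ 0) → {w : Place ℂ L | MeetsAt S v w}.Finite) ∧
      pht ℂ v ≤ A * (canDeg ℂ L + {w : Place ℂ L | MeetsAt S v w}.ncard) + B :=
  Pool.Agent.Run7.h830.GN.surf_log d hd

end Pool.Agent.Results.MP_308c18_ag.CoveredSurfaces
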